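import Mathlib
import Pool.Agent.H348R6.GV1

/-!
# There need not be a Tukey-minimal poset for `𝓘`-cohesiveness

On `ω × ω₁` let `𝓘` be the ideal generated by the sets `n × ω₁` and `ω × β`. The directed sets `ω`
and `ω₁` are both `𝓘`-cohesive. A poset Tukey-below both of them has a greatest element, so it is
Tukey-below the one point directed set, which is not `𝓘`-cohesive.
-/

set_option autoImplicit false

namespace Pool.Agent.Results.MP_95a664_lc.NoTukeyMinimalPoset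

open Cardinal Set

universe u v

/-- `C` is cofinal in the poset `P`. -/
def Cofinal {P : Type u} [PartialOrder P] (C : Set P) : Prop := ∀ p, ∃ c ∈ C, p ≤ c

/-- `P ≤_T Q`: some map `f : Q → P` sends every cofinal subset of `Q` onto a cofinal subset
of `P`. -/
def TukeyLE (P : Type u) (Q : Type v) [PartialOrder P] [PartialOrder Q] : Prop :=
  ∃ f : Q → P, ∀ C : Set Q, Cofinal C → Cofinal (f '' C)

/-- Any two elements of the poset `Q` have a common upper bound. -/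
def Directed' (Q : Type v) [PartialOrder Q] : Prop := ∀ a b : Q, ∃ c, a ≤ c ∧ b ≤ c

/-- `I` is a (proper) ideal of sets on the set `⋃₀ I`. -/
def IsSetIdeal {X : Type u} (I : Set (Set X)) : Prop :=
  I.Nonempty ∧ (∀ A ∈ I, ∀ B, B ⊆ A → B ∈ I) ∧ (∀ A ∈ I, ∀ B ∈ I, A ∪ B ∈ I) ∧ ⋃₀ I ∉ I

/-- The poset `Q` is `I`-cohesive: there are elements `q i` (`i ∈ Space(I) = ⋃₀ I`) such that for
every `S ⊆ Space(I)` which is not in `I` the set `{q i : i ∈ S}` is unbounded in `Q`. -/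
def Cohesive {X : Type u} (I : Set (Set X)) (Q : Type v) [PartialOrder Q] : Prop :=
  ∃ q : ↥(⋃₀ I) → Q, ∀ S : Set X, S ⊆ ⋃₀ I → S ∉ I → ¬ BddAbove (q '' {i | (i : X) ∈ S})

theorem eventually_le {P : Type u} {Q : Type v} [PartialOrder P] [PartialOrder Q]
    {f : Q → P} (hf : ∀ C : Set Q, Cofinal C → Cofinal (f '' C)) (p : P) :
    ∃ q, ∀ q', q ≤ q' → p ≤ f q' := by
  by_contra hcon
  push Not at hcon
  obtain ⟨_, ⟨c, hc, rfl⟩, h⟩ := hf {q | ¬ p ≤ f q} (fun q => by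
    obtain ⟨q', h1, h2⟩ := hcon q
    exact ⟨q', h2, h1⟩) p
  exact hc h

/-- The ordinal `ω₁` as a linear order. -/
abbrev Om : Type := (Cardinal.aleph 1 : Cardinal.{0}).ord.ToType

theorem bdd {ι : Type} (h : Countable ι) (g : ι → Om) : ∃ b, ∀ i, g i < b :=
  Pool.Agent.H348R6.GV.bdd_of_lt isRegular_aleph_one g
    ((mk_le_aleph0_iff.2 h).trans_lt aleph0_lt_aleph_one)

/-- the ideal on `ω × ω₁` generated by the sets `n × ω₁` and `ω × β` -/
def theIdeal : Set (Set (ℕ × Om)) := {S | ∃ (n : ℕ) (β : Om), ∀ x ∈ S, x.1 ≤ n ∨ x.2 ≤ β}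

theorem nonempty_Om : Nonempty Om := Pool.Agent.H348R6.GV.nonempty_toType isRegular_aleph_one

theorem mem_space (x : ℕ × Om) : x ∈ ⋃₀ theIdeal :=
  mem_sUnion.2 ⟨{x}, ⟨x.1, x.2, by rintro y rfl; exact Or.inl le_rfl⟩, rfl⟩

theorem isSetIdeal : IsSetIdeal theIdeal := by
  obtain ⟨β₀⟩ := nonempty_Om
  refine ⟨⟨∅, 0, β₀, by simp⟩, ?_, ?_, ?_⟩
  · rintro A ⟨n, β, h⟩ B hB
    exact ⟨n, β, fun x hx => h x (hB hx)⟩
  · rintro A ⟨n, β, h⟩ B ⟨m, γ, h'⟩
    refine ⟨max n m, max β γ, fun x hx => ?_⟩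
    rcases hx with hx | hx
    · rcases h x hx with h1 | h1
      · exact Or.inl (h1.trans (le_max_left _ _))
      · exact Or.inr (h1.trans (le_max_left _ _))
    · rcases h' x hx with h1 | h1
      · exact Or.inl (h1.trans (le_max_right _ _))
      · exact Or.inr (h1.trans (le_max_right _ _))
  · rintro ⟨n, β, h⟩
    obtain ⟨γ, hγ⟩ := bdd (ι := Unit) inferInstance (fun _ => β)
    rcases h (n + 1, γ) (mem_space _) with h1 | h1
    · simp at h1
    · exact absurd h1 (not_le.2 (hγ ()))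

theorem cohesive_nat : Cohesive theIdeal ℕ := by
  refine ⟨fun i => i.1.1, fun S hS hS' hb => hS' ?_⟩
  obtain ⟨N, hN⟩ := hb
  obtain ⟨β₀⟩ := nonempty_Om
  exact ⟨N, β₀, fun x hx => Or.inl (hN ⟨⟨x, hS hx⟩, hx, rfl⟩)⟩

theorem cohesive_Om : Cohesive theIdeal Om := by
  refine ⟨fun i => i.1.2, fun S hS hS' hb => hS' ?_⟩
  obtain ⟨N, hN⟩ := hb
  exact ⟨0, N, fun x hx => Or.inr (hN ⟨⟨x, hS hx⟩, hx, rfl⟩)⟩

theorem not_cohesive_unit : ¬ Cohesive theIdeal PUnit.{1} := by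
  rintro ⟨q, hq⟩
  exact hq (⋃₀ theIdeal) le_rfl isSetIdeal.2.2.2 ⟨⟨⟩, fun _ _ => le_rfl⟩

/-- **Main theorem.** There is a proper ideal `I` of subsets of some set such that no poset `P`
has the property that the directed sets `Q` with `P ≤_T Q` are exactly the `I`-cohesive directed
sets. Here `P` ranges over the posets of an arbitrary universe. -/
theorem result : ∃ (X : Type) (I : Set (Set X)), IsSetIdeal I ∧
    ∀ (P : Type u) [PartialOrder P],
      ¬ ∀ (Q : Type) [PartialOrder Q], Directed' Q → (TukeyLE P Q ↔ Cohesive I Q) := by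
  refine ⟨ℕ × Om, theIdeal, isSetIdeal, fun P _ h => ?_⟩
  have dir : ∀ (Q : Type) [LinearOrder Q], Directed' Q := fun Q _ a b =>
    ⟨max a b, le_max_left _ _, le_max_right _ _⟩
  obtain ⟨f, hf⟩ := (h ℕ (dir ℕ)).2 cohesive_nat
  obtain ⟨g, hg⟩ := (h Om (dir Om)).2 cohesive_Om
  choose β hβ using fun n : ℕ => eventually_le hg (f n)
  obtain ⟨b, hb⟩ := bdd inferInstance β
  have top : ∀ p, p ≤ g b := by
    intro p
    obtain ⟨n, hn⟩ := eventually_le hf p
    exact (hn n le_rfl).trans (hβ n b (hb n).le)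
  refine not_cohesive_unit ((h PUnit.{1} (dir PUnit.{1})).1 ⟨fun _ => g b, fun C hC p => ?_⟩)
  obtain ⟨c, hc, -⟩ := hC ⟨⟩
  exact ⟨g b, ⟨c, hc, rfl⟩, top p⟩

end Pool.Agent.Results.MP_95a664_lc.NoTukeyMinimalPoset
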